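import Pool.Agent.Work.MP_0890ba_co.DS.UT.Piece
import Pool.Agent.Work.MP_0890ba_co.DS.LawEx

/-!
# The rate of the tickets for planar graphs
-/

set_option linter.unusedSectionVars false

namespace DS

namespace UT

open Finset Classical BDP BDP.Hub Pool.Agent.Work.MP_0890ba_co

variable {V : Type} {G : SimpleGraph V}

/-- Planar graphs have tickets with rate `16203 / 16202`. -/
theorem lawEx [Fintype V] (hD : ∀ n, ∃ N, 0 < N ∧ Tickets n N) (hP : Pln G)
    (g5 : ¬HasK5Minor G) (g3 : ¬HasK3Minor 3 G) : DSP.LawEx (16203 / 16202) nT G := by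
  intro n β K Zs A h1 h2 h3 h4 h5
  obtain ⟨S, hS1, hS2⟩ := piece_tickets hP g5 g3 h1 h2 h3 (hD (n + 1)) h4 h5
  refine ⟨S, hS1, fun v hv => ?_⟩
  have h6 : (16202 : ℝ) * gT n = 16203 * nT n := by exact_mod_cast gT_nT n
  have h7 : ((gT n * β : ℕ) : ℝ) ≤ ((∑ ω, (S ω v).card : ℕ) : ℝ) := by exact_mod_cast hS2 v hv
  refine le_trans (le_of_eq ?_) h7
  have h8 : (16203 / 16202 : ℝ) * nT n = gT n := by
    rw [div_mul_eq_mul_div, div_eq_iff (by norm_num)]
    linarith
  rw [h8]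
  push_cast
  ring

end UT

end DS
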