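import Pool.Agent.Work.MP_0890ba_co.BD.Uni
import Pool.Agent.Work.MP_0890ba_co.DS.Defs

/-!
# The mixture of a random independent set and two colourings with a doubled vertex
-/

set_option linter.unusedSectionVars false

namespace DS

namespace UT

open Finset Classical BDP BDP.Hub Pool.Agent.Work.MP_0890ba_co

variable {V : Type} {G : SimpleGraph V}

/-- `N` independent sets suffice for all planar graphs with at most `n` vertices: every neighbour
of `z` is in at least `201 / 800` of the sets, every other vertex in `201 / 1000` of them. -/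
def Tickets (n N : ℕ) : Prop := ∀ (V : Type) [Fintype V] (G : SimpleGraph V) (z : V),
  Fintype.card V ≤ n → Pln G → ∃ I : Fin N → Set V,
    (∀ ω, z ∉ I ω ∧ ∀ u ∈ I ω, ∀ v ∈ I ω, ¬G.Adj u v) ∧
    (∀ v, G.Adj z v → 201 * N ≤ 800 * (univ.filter fun ω => v ∈ I ω).card) ∧
    ∀ v, v ≠ z → 201 * N ≤ 1000 * (univ.filter fun ω => v ∈ I ω).card

/-- Independent sets of `K` for precoloured vertices `Z`. -/
def Fam (G : SimpleGraph V) (Z : Finset V) (K : Set V) (N : ℕ) : Prop :=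
  ∃ I : Fin N → Set V, (∀ ω, ∀ u ∈ I ω, ∀ v ∈ I ω, ¬G.Adj u v) ∧
    (∀ v ∈ K, hn G Z v ≠ 0 → 201 * N ≤ 800 * (univ.filter fun ω => v ∈ I ω).card) ∧
    ∀ v ∈ K, 201 * N ≤ 1000 * (univ.filter fun ω => v ∈ I ω).card

lemma Fam.mono {Z : Finset V} {K K' : Set V} {N : ℕ} (h : Fam G Z K N) (hK : K' ⊆ K) :
    Fam G Z K' N := by
  obtain ⟨I, h1, h2, h3⟩ := h
  exact ⟨I, h1, fun v hv => h2 v (hK hv), fun v hv => h3 v (hK hv)⟩

/-- The sum over an indexed family of sets which are full or empty. -/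
lemma sum_ite {Ω : Type} [Fintype Ω] (p : Ω → Prop) (D : Finset ℤ) :
    ∑ ω, (if p ω then D else ∅).card = (univ.filter fun ω => p ω).card * D.card := by
  have h1 : ∀ ω, (if p ω then D else ∅).card = if p ω then D.card else 0 := by
    intro ω
    split_ifs
    · rfl
    · rfl
  simp only [h1]
  rw [← sum_filter, sum_const, smul_eq_mul]

/-- The independent sets as set colourings. -/
lemma fam_col {Z : Finset V} {K : Set V} {N : ℕ} (h : Fam G Z K N) {A : V → Finset ℤ} {β : ℕ}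
    (hA : ∀ v ∈ K, 5 * β ≤ (A v).card + hn G Z v * β) :
    ∃ S : Fin N → V → Finset ℤ, (∀ ω, SetCol G K A (S ω)) ∧
      (∀ v ∈ K, hn G Z v ≤ 1 → 201 * (N * β) ≤ 200 * ∑ ω, (S ω v).card) ∧
      ∀ v ∈ K, hn G Z v = 2 → 603 * (N * β) ≤ 800 * ∑ ω, (S ω v).card := by
  obtain ⟨I, h1, h2, h3⟩ := h
  refine ⟨fun ω v => if v ∈ I ω then A v else ∅, fun ω => ⟨fun v _ => ?_, fun u _ v _ huv => ?_⟩,
    fun v hv h0 => ?_, fun v hv h0 => ?_⟩
  · show (if v ∈ I ω then A v else ∅) ⊆ A v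
    split_ifs
    · exact Subset.refl _
    · exact empty_subset _
  · show Disjoint (if u ∈ I ω then A u else ∅) (if v ∈ I ω then A v else ∅)
    split_ifs with h4 h5
    · exact absurd huv (h1 ω u h4 v h5)
    · exact disjoint_empty_right _
    · exact disjoint_empty_left _
    · exact disjoint_empty_left _
  · show 201 * (N * β) ≤ 200 * ∑ ω, (if v ∈ I ω then A v else ∅).card
    rw [sum_ite]
    have h4 := hA v hv
    rcases Nat.eq_zero_or_pos (hn G Z v) with h5 | h5
    · rw [h5] at h4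
      have h6 := h3 v hv
      have h7 := Nat.mul_le_mul h6 (show 5 * β ≤ (A v).card by omega)
      nlinarith
    · have h6 := h2 v hv h5.ne'
      have h7 : hn G Z v = 1 := by omega
      rw [h7] at h4
      have h8 := Nat.mul_le_mul h6 (show 4 * β ≤ (A v).card by omega)
      nlinarith
  · show 603 * (N * β) ≤ 800 * ∑ ω, (if v ∈ I ω then A v else ∅).card
    rw [sum_ite]
    have h4 := hA v hv
    rw [h0] at h4
    have h6 := h2 v hv (by omega)
    have h8 := Nat.mul_le_mul h6 (show 3 * β ≤ (A v).card by omega)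
    nlinarith

/-- The mixture. -/
theorem mix3 [Fintype V] (hG : Five.SepOrGood G) {Z : Finset V}
    (hcl : ∀ u ∈ Z, ∀ v ∈ Z, u ≠ v → G.Adj u v) (hZ : Z.card ≤ 2) {K : Set V}
    (hK : ∀ v ∈ K, v ∉ Z) {N : ℕ} (hF : Fam G Z K N) {X : Finset V} (hX2 : X.card ≤ 2)
    (hX : ∀ x, x ∈ X ↔ x ∈ K ∧ hn G Z x = 2)
    {A : V → Finset ℤ} {β : ℕ} (hA : ∀ v ∈ K, 5 * β ≤ (A v).card + hn G Z v * β) :
    ∃ S : Fin 3 × Fin N → V → Finset ℤ, (∀ ω, SetCol G K A (S ω)) ∧
      (∀ v ∈ K, hn G Z v ≤ 1 → 601 * (N * β) ≤ 200 * ∑ ω, (S ω v).card) ∧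
      ∀ v ∈ K, hn G Z v = 2 → 3 * (N * β) ≤ ∑ ω, (S ω v).card := by
  obtain ⟨D, hD1, hD2, hD3⟩ := fam_col hF hA
  rcases X.eq_empty_or_nonempty with h0 | ⟨x₀, hx₀⟩
  · refine ⟨fun ω => D ω.2, fun ω => hD1 _, fun v hv h1 => ?_, fun v hv h1 => ?_⟩
    · rw [Fintype.sum_prod_type]
      have h2 := hD2 v hv h1
      simp only [sum_const, card_univ, Fintype.card_fin, smul_eq_mul]
      omega
    · have h2 := (hX v).2 ⟨hv, h1⟩
      rw [h0] at h2
      exact absurd h2 (notMem_empty v)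
  -- the doubled vertices
  have hT : ∀ x ∈ X, ∃ S : V → Finset ℤ, SetCol G K A S ∧
      (∀ v ∈ K, v ≠ x → β ≤ (S v).card) ∧ 2 * β ≤ (S x).card := by
    intro x hx
    obtain ⟨hxK, hx2⟩ := (hX x).1 hx
    have h1 : (Z.filter fun u => G.Adj u x) = Z := by
      refine filter_eq_self.2 ?_
      have h2 : (Z.filter fun u => G.Adj u x) = Z :=
        eq_of_subset_of_card_le (filter_subset _ _) (by
          have h3 : (Z.filter fun u => G.Adj u x).card = 2 := hx2
          omega)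
      intro u hu
      rw [← h2] at hu
      exact (mem_filter.1 hu).2
    have h2 : Z.card = 2 := by
      rw [← h1]
      exact hx2
    obtain ⟨p, q, hpq, hZ'⟩ := card_eq_two.1 h2
    have hp : p ∈ Z := by rw [hZ']; simp
    have hq : q ∈ Z := by rw [hZ']; simp
    have hp' : G.Adj p x := by
      rw [← h1] at hp
      exact (mem_filter.1 hp).2
    have hq' : G.Adj q x := by
      rw [← h1] at hq
      exact (mem_filter.1 hq).2
    refine double hG (hcl p hp q hq hpq) (fun h => hK p h hp) (fun h => hK q h hq) hxK hp' hq' ?_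
    intro v hv
    have h3 := hA v hv
    rw [hZ', hn_pair hpq] at h3
    split_ifs at h3 ⊢ <;> omega
  obtain ⟨x₁, hx₁, hXx⟩ : ∃ x₁ ∈ X, ∀ x ∈ X, x = x₀ ∨ x = x₁ := by
    rcases Nat.lt_or_ge X.card 2 with h | h
    · exact ⟨x₀, hx₀, fun x hx => Or.inl (card_le_one.1 (by omega) x hx x₀ hx₀)⟩
    · obtain ⟨a, b, hab, hX'⟩ := card_eq_two.1 (show X.card = 2 by omega)
      rw [hX'] at hx₀ ⊢
      simp only [mem_insert, mem_singleton] at hx₀ ⊢
      rcases hx₀ with rfl | rfl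
      · exact ⟨b, Or.inr rfl, fun x hx => hx⟩
      · exact ⟨a, Or.inl rfl, fun x hx => hx.symm⟩
  obtain ⟨T₀, hT₀1, hT₀2, hT₀3⟩ := hT x₀ hx₀
  obtain ⟨T₁, hT₁1, hT₁2, hT₁3⟩ := hT x₁ hx₁
  have hb₀ : ∀ v ∈ K, β ≤ (T₀ v).card := by
    intro v hv
    by_cases h : v = x₀
    · rw [h]; omega
    · exact hT₀2 v hv h
  have hb₁ : ∀ v ∈ K, β ≤ (T₁ v).card := by
    intro v hv
    by_cases h : v = x₁
    · rw [h]; omega
    · exact hT₁2 v hv h
  have hsum : ∀ v, ∑ ω : Fin 3 × Fin N, ((if ω.1 = 0 then D ω.2 v else if ω.1 = 1 then T₀ v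
      else T₁ v) : Finset ℤ).card = ∑ i, (D i v).card + N * (T₀ v).card + N * (T₁ v).card := by
    intro v
    rw [Fintype.sum_prod_type, Fin.sum_univ_three]
    simp
  refine ⟨fun ω v => if ω.1 = 0 then D ω.2 v else if ω.1 = 1 then T₀ v else T₁ v,
    fun ω => ?_, fun v hv h1 => ?_, fun v hv h1 => ?_⟩
  · rcases ω with ⟨i, j⟩
    by_cases h : i = 0
    · simp only [h, if_true]
      exact hD1 j
    · by_cases h' : i = 1
      · simp only [h', if_true]
        exact hT₀1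
      · simp only [h, h', if_false]
        exact hT₁1
  · rw [hsum v]
    have h2 := hD2 v hv h1
    have h3 := Nat.mul_le_mul_left N (hb₀ v hv)
    have h4 := Nat.mul_le_mul_left N (hb₁ v hv)
    omega
  · rw [hsum v]
    have h2 := hD3 v hv h1
    have h3 := Nat.mul_le_mul_left N (hb₀ v hv)
    have h4 := Nat.mul_le_mul_left N (hb₁ v hv)
    rcases hXx v ((hX v).2 ⟨hv, h1⟩) with h | h
    · have h5 := Nat.mul_le_mul_left N hT₀3
      rw [← h] at h5
      rw [show N * (2 * β) = 2 * (N * β) by ring] at h5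
      omega
    · have h5 := Nat.mul_le_mul_left N hT₁3
      rw [← h] at h5
      rw [show N * (2 * β) = 2 * (N * β) by ring] at h5
      omega

end UT

end DS
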