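import Pool.Agent.Work.MP_0890ba_co.DS.UT.Uni
import Pool.Agent.Work.MP_0890ba_co.DS.Minor

/-!
# Tickets for a piece which sees at most two vertices
-/

set_option linter.unusedSectionVars false

namespace DS

namespace UT

open Finset Classical BDP BDP.Hub Pool.Agent.Work.MP_0890ba_co

variable {V : Type} {G : SimpleGraph V}

/-- The number of independent sets which suffices for graphs with `n + 1` vertices. -/
noncomputable def nD (n : ℕ) : ℕ := if h : ∃ N, 0 < N ∧ Tickets (n + 1) N then h.choose else 1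

lemma nD_pos (n : ℕ) : 0 < nD n := by
  unfold nD
  split_ifs with h
  · exact h.choose_spec.1
  · exact Nat.one_pos

lemma tickets_nD {n : ℕ} (h : ∃ N, 0 < N ∧ Tickets (n + 1) N) : Tickets (n + 1) (nD n) := by
  unfold nD
  rw [dif_pos h]
  exact h.choose_spec.2

/-- The number of tickets. -/
noncomputable def nT (n : ℕ) : ℕ := 16202 * (nD n * 3 ^ n)

/-- The number of tickets a vertex gets, for each `β`. -/
noncomputable def gT (n : ℕ) : ℕ := 16203 * (nD n * 3 ^ n)

lemma nT_pos (n : ℕ) : 0 < nT n := by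
  have h := nD_pos n
  unfold nT
  positivity

lemma gT_nT (n : ℕ) : 16202 * gT n = 16203 * nT n := by
  unfold gT nT
  ring

/-- The graph on `K` and one more vertex, which is adjacent to the vertices of `K` next to `Z`. -/
def con (G : SimpleGraph V) (K : Set V) (Z : Finset V) : SimpleGraph (Option K) where
  Adj a b := match a, b with
    | some u, some v => G.Adj u v
    | none, some v => hn G Z v ≠ 0
    | some u, none => hn G Z u ≠ 0
    | none, none => False
  symm := ⟨by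
    rintro (_ | u) (_ | v) h
    · exact h
    · exact h
    · exact h
    · exact G.symm.symm _ _ h⟩
  loopless := ⟨by
    rintro (_ | u) h
    · exact h
    · exact G.loopless.irrefl _ h⟩

lemma pln_con [Fintype V] (hG : Pln G) {Z : Finset V} {K : Set V} (hKZ : ∀ v ∈ K, v ∉ Z)
    (hr : ∀ u ∈ Z, ∀ v ∈ Z, (res G Kᶜ).Reachable u v) : Pln (con G K Z) := by
  have hne : ∀ v, hn G Z v ≠ 0 → ∃ u ∈ Z, G.Adj u v := by
    intro v hv
    obtain ⟨z, hz⟩ := card_pos.1 (Nat.pos_of_ne_zero hv)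
    exact ⟨z, (mem_filter.1 hz).1, (mem_filter.1 hz).2⟩
  have hs : ∀ x : V, Conn G {x} := by
    intro x a ha b hb
    rw [Set.mem_singleton_iff] at ha hb
    rw [ha, hb]
  obtain ⟨R, hR1, hR2, hR3⟩ : ∃ R : Set V, Conn G R ∧ Disjoint R K ∧ ∀ u ∈ Z, u ∈ R := by
    rcases Z.eq_empty_or_nonempty with h0 | ⟨p, hp⟩
    · refine ⟨∅, fun x hx => absurd hx (Set.notMem_empty x), Set.empty_disjoint _, ?_⟩
      rw [h0]
      exact fun u hu => absurd hu (notMem_empty u)
    · refine ⟨cmp G Kᶜ p, conn_component _ _, ?_, fun u hu => hr p hp u hu⟩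
      rw [Set.disjoint_left]
      intro x hx hx'
      exact cmp_subset (show p ∈ Kᶜ from fun h => hKZ p h hp) hx hx'
  refine Pln.minor hG (fun a : Option K => match a with
    | some u => {(u : V)}
    | none => R) ?_ ?_ ?_
  · rintro (_ | u)
    · exact hR1
    · exact hs u
  · rintro (_ | u) (_ | v) h
    · exact absurd rfl h
    · exact Set.disjoint_singleton_right.2 fun h1 => Set.disjoint_left.1 hR2 h1 v.2
    · exact Set.disjoint_singleton_left.2 fun h1 => Set.disjoint_left.1 hR2 h1 u.2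
    · exact Set.disjoint_singleton.2 fun h1 => h (congrArg some (Subtype.ext h1))
  · rintro (_ | u) (_ | v) h
    · exact absurd h (fun h => h)
    · obtain ⟨p, hp, hpv⟩ := hne v h
      exact ⟨p, hR3 p hp, v, rfl, hpv⟩
    · obtain ⟨p, hp, hpu⟩ := hne u h
      exact ⟨u, rfl, p, hR3 p hp, hpu.symm⟩
    · exact ⟨u, rfl, v, rfl, h⟩

lemma fam_of [Fintype V] {Z : Finset V} {K : Set V} {n N : ℕ} (hT : Tickets (n + 1) N)
    (hK : K.ncard ≤ n) (hP : Pln (con G K Z)) : Fam G Z K N := by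
  have hc : Fintype.card (Option K) ≤ n + 1 := by
    rw [Fintype.card_option, ← Nat.card_eq_fintype_card, Nat.card_coe_set_eq]
    omega
  obtain ⟨I, h1, h2, h3⟩ := hT (Option K) (con G K Z) none hc hP
  refine ⟨fun ω => {v | ∃ h : v ∈ K, some ⟨v, h⟩ ∈ I ω}, ?_, fun v hv h => ?_, fun v hv => ?_⟩
  · rintro ω u ⟨hu, hu'⟩ v ⟨hv, hv'⟩ huv
    exact (h1 ω).2 _ hu' _ hv' huv
  · refine (h2 (some ⟨v, hv⟩) h).trans (Nat.mul_le_mul_left _ (card_le_card ?_))
    intro ω hω
    exact mem_filt.2 ⟨mem_univ _, hv, (mem_filt.1 hω).2⟩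
  · refine (h3 (some ⟨v, hv⟩) (by simp)).trans (Nat.mul_le_mul_left _ (card_le_card ?_))
    intro ω hω
    exact mem_filt.2 ⟨mem_univ _, hv, (mem_filt.1 hω).2⟩

/-- The graph with the virtual edge has no Kuratowski minor. -/
lemma minor_clq (h5 : ¬HasK5Minor G) (h3 : ¬HasK3Minor 3 G) {K R : Set V} {Z : Finset V}
    (hZ : Z.card ≤ 2) (hRK : Disjoint R K) (hZR : ∀ u ∈ Z, u ∈ R)
    (hr : ∀ u ∈ Z, ∀ v ∈ Z, (res G R).Reachable u v) :
    ¬HasK5Minor (clq G K Z) ∧ ¬HasK3Minor 3 (clq G K Z) := by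
  by_cases h2 : Z.card = 2
  · obtain ⟨p, q, hpq, rfl⟩ := card_eq_two.1 h2
    have hp : p ∈ ({p, q} : Finset V) := mem_insert_self _ _
    have hq : q ∈ ({p, q} : Finset V) := mem_insert_of_mem (mem_singleton_self _)
    rw [coe_insert, coe_singleton]
    exact ⟨no_five hpq hRK (hZR p hp) (hr p hp q hq) h5,
      no_three hpq hRK (hZR p hp) (hr p hp q hq) h3⟩
  · have h1 : Z.card ≤ 1 := by omega
    have hle : clq G K Z ≤ G := by
      rintro x y (h | h)
      · exact h.1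
      · exact absurd (card_le_one.1 h1 x h.2.1 y h.2.2) h.1
    exact ⟨fun h => h5 (hasK5Minor_mono hle h), fun h => h3 (Far.hasK3Minor_mono hle h)⟩

/-- Tickets for a set `K` of at most `n` vertices and at most two precoloured vertices which are
joined outside `K`. -/
theorem piece_tickets [Fintype V] (hP : Pln G) (g5 : ¬HasK5Minor G) (g3 : ¬HasK3Minor 3 G)
    {Z : Finset V} (hZ : Z.card ≤ 2) {K : Set V} (hKZ : ∀ v ∈ K, v ∉ Z)
    (hr : ∀ u ∈ Z, ∀ v ∈ Z, (res G Kᶜ).Reachable u v) {n : ℕ}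
    (hD : ∃ N, 0 < N ∧ Tickets (n + 1) N) (hn' : K.ncard ≤ n) {A : V → Finset ℤ} {β : ℕ}
    (hA : ∀ v ∈ K, 5 * β ≤ (A v).card + hn G Z v * β) :
    ∃ S : Fin (nT n) → V → Finset ℤ, (∀ ω, SetCol G K A (S ω)) ∧
      ∀ v ∈ K, gT n * β ≤ ∑ ω, (S ω v).card := by
  obtain ⟨h5, h3⟩ := minor_clq g5 g3 (K := K) (R := Kᶜ) hZ
    (by
      rw [Set.disjoint_left]
      exact fun x hx hx' => hx hx')
    (fun u hu h => hKZ u h hu) hr
  have hadj : ∀ u v, v ∈ K → u ∈ K ∨ u ∈ Z → ((clq G K Z).Adj u v ↔ G.Adj u v) := by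
    intro u v hv hu
    constructor
    · rintro (h | h)
      · exact h.1
      · exact absurd h.2.2 (hKZ v hv)
    · exact fun h => Or.inl ⟨h, hu, Or.inl hv⟩
  have hhn : ∀ v ∈ K, hn (clq G K Z) Z v = hn G Z v := by
    intro v hv
    unfold hn
    congr 1
    exact filter_congr fun u hu => hadj u v hv (Or.inr hu)
  have hcon : con (clq G K Z) K Z = con G K Z := by
    ext a b
    rcases a with _ | u
    · rcases b with _ | v
      · exact Iff.rfl
      · show hn (clq G K Z) Z v ≠ 0 ↔ hn G Z v ≠ 0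
        rw [hhn v v.2]
    · rcases b with _ | v
      · show hn (clq G K Z) Z u ≠ 0 ↔ hn G Z u ≠ 0
        rw [hhn u u.2]
      · exact hadj u v v.2 (Or.inl u.2)
  have hF : Fam (clq G K Z) Z K (nD n) :=
    fam_of (tickets_nD hD) hn' (by rw [hcon]; exact pln_con hP hKZ hr)
  obtain ⟨S, hS, hsum⟩ := uniform h5 h3 (Z := Z) (fun u hu v hv huv => Or.inr ⟨huv, hu, hv⟩) hZ
    (K := K) hKZ (nD_pos n) hF
    (A := A) (β := β) (fun v hv => by rw [hhn v hv]; exact hA v hv) hn'
  refine ⟨S, fun ω => ⟨(hS ω).1, fun u hu v hv huv => ?_⟩, hsum⟩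
  exact (hS ω).2 u hu v hv ((hadj u v hv (Or.inl hu)).2 huv)

end UT

end DS
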